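import Mathlib
import Pool.Agent.Lib_helper31.PerfDefs
import Pool.Agent.Lib_helper31.WildRing
import Pool.Agent.Lib_helper31.Instance

/-!
# The evaluation ideal of the perfect closure does not define the non-Frobenius-split locus

For every prime `p` there is a Noetherian domain `R` of characteristic `p` whose perfect closure
is solid and a prime of `R` which contains the evaluation ideal but at which `R` is Frobenius
split.
-/

set_option autoImplicit false

namespace Pool.Agent.Results.MP_45223c_al.LocusCounterexample

open Pool.Agent.Lib_helper31

/-- The non-Frobenius-split locus of `R`: the primes `q` such that the localization `R_q` is not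
Frobenius split. -/
def nonSplitLocus (R : Type) [CommRing R] (p : ℕ) : Set (PrimeSpectrum R) :=
  {q | ¬ FrobeniusSplit (Localization.AtPrime q.asIdeal) p}

/-- For every prime number `p` there is a Noetherian domain `R` of characteristic `p` such that
`R_perf` is a solid `R`-algebra, and a prime `q` of `R` which contains the evaluation ideal
of `R_perf` but does not lie in the non-Frobenius-split locus of `R`. -/
theorem result (p : ℕ) [Fact p.Prime] :
    ∃ (R : Type) (_ : CommRing R) (_ : IsDomain R) (_ : IsNoetherianRing R) (_ : CharP R p),
      PerfIsSolid R p ∧
        ∃ q : PrimeSpectrum R,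
          q ∈ PrimeSpectrum.zeroLocus (evalIdeal R p : Set R) ∧ q ∉ nonSplitLocus R p := by
  let D := Branch.data p
  obtain ⟨h1, h2, h3, h4⟩ := D.main
  refine ⟨D.R, inferInstance, inferInstance, h1, inferInstance, h2, ⟨D.P, D.isPrime_P⟩, ?_, ?_⟩
  · exact h3
  · intro h
    exact h h4

end Pool.Agent.Results.MP_45223c_al.LocusCounterexample
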